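import Mathlib
import Pool.Agent.N740.HK.Pow3
import Pool.Agent.N740.HK.Sch

/-!
# Primes between `x` and `x + √x` in all sequential random models

The integers are decided one after the other and the conditional probability of choosing `n + 1`,
given the decisions up to `n`, is asymptotic to `1 / log n`, almost surely.  Nothing else is assumed:
no independence and no rate of convergence.  The independent model of Cramér and the random sieve of
Hawkins are examples.  The number of chosen integers between `x` and `x + √x` differs from the sum of the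
conditional probabilities by at most `(1 + o(1)) x ^ (1/4)`, and all multiples `c x ^ (1/4)`, `|c| ≤ 1`, occur.
-/

set_option autoImplicit false

open MeasureTheory Filter Set ProbabilityTheory
open scoped Topology

namespace Pool.Agent.Results.MP_b8a134_nt.FluctuationLaw

variable {Ω : Type}

/-- `A n` is the event that `n` is chosen.  The events are adapted to the filtration `ℱ` and the
conditional probability of `A (n + 1)` given `ℱ n`, times `log n`, tends to `1` almost surely. -/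
def SequentialModel [m : MeasurableSpace Ω] (μ : Measure Ω) (ℱ : Filtration ℕ m) (A : ℕ → Set Ω) : Prop :=
  (∀ n, MeasurableSet[ℱ n] (A n)) ∧
  ∀ᵐ ω ∂μ, Tendsto (fun n : ℕ => (μ[(A (n + 1)).indicator (fun _ => (1 : ℝ)) | ℱ n]) ω * Real.log n) atTop (𝓝 1)

/-- The model of Cramér: independent events, `n` is chosen with probability `1 / log n` for `n ≥ 3`. -/
def CramerModel [MeasurableSpace Ω] (μ : Measure Ω) (A : ℕ → Set Ω) : Prop :=
  (∀ n, MeasurableSet (A n)) ∧ iIndepSet A μ ∧ ∀ n : ℕ, 3 ≤ n → μ (A n) = ENNReal.ofReal (1 / Real.log n)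

open Classical in
/-- The random sieve of Hawkins: `2` is chosen, and given the decisions up to `n ≥ 2` the number
`n + 1` is chosen with probability `∏ (1 - 1 / h)`, the product over the chosen `2 ≤ h ≤ n`. -/
def HawkinsSieve [m : MeasurableSpace Ω] (μ : Measure Ω) (ℱ : Filtration ℕ m) (A : ℕ → Set Ω) : Prop :=
  (∀ n, MeasurableSet[ℱ n] (A n)) ∧ A 2 = univ ∧
  ∀ n, 2 ≤ n → μ[(A (n + 1)).indicator (fun _ => (1 : ℝ)) | ℱ n] =ᵐ[μ]
    fun ω => ∏ h ∈ Finset.Icc 2 n, if ω ∈ A h then 1 - 1 / (h : ℝ) else 1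

open Classical in
/-- The number of chosen integers `r` with `x < r < y` minus the sum of their conditional
probabilities given the earlier decisions (in the model of Cramér: minus the sum of `1 / log r`). -/
noncomputable def excess [m : MeasurableSpace Ω] (μ : Measure Ω) (ℱ : Filtration ℕ m) (A : ℕ → Set Ω) (x y : ℝ) (ω : Ω) : ℝ :=
  ∑ r ∈ (Finset.range ⌈y⌉₊).filter (fun r : ℕ => x < r),
    ((A r).indicator (fun _ => (1 : ℝ)) ω - (μ[(A r).indicator (fun _ => (1 : ℝ)) | ℱ (r - 1)]) ω)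

open Pool.Agent.N740.HK Pool.Agent.R528.RM

lemma prod_inv (A : ℕ → Set Ω) (n : ℕ) (ω : Ω) [DecidablePred fun h => ω ∈ A h] :
    (∏ h ∈ Finset.Icc 2 n, if ω ∈ A h then 1 - 1 / (h : ℝ) else 1) = (Y A n ω)⁻¹ := by
  unfold Y
  rw [← Finset.prod_inv_distrib]
  refine Finset.prod_congr rfl fun h hh => ?_
  have h2 : (2 : ℝ) ≤ h := by exact_mod_cast (Finset.mem_Icc.1 hh).1
  by_cases hA : ω ∈ A h
  · rw [if_pos hA, if_pos hA, inv_div]
    field_simp
  · rw [if_neg hA, if_neg hA, inv_one]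

lemma log_ratio : Tendsto (fun n : ℕ => (Real.log ((n + 1 : ℕ) : ℝ))⁻¹ * Real.log n) atTop (𝓝 1) := by
  have h1 : Tendsto (fun n : ℕ => Real.log ((n : ℝ) + 1) - Real.log n) atTop (𝓝 0) := by
    have h1 : Tendsto (fun n : ℕ => 1 + (1 : ℝ) / n) atTop (𝓝 (1 + 0)) :=
      tendsto_const_nhds.add tendsto_one_div_atTop_nhds_zero_nat
    rw [add_zero] at h1
    have h2 := (Real.continuousAt_log (one_ne_zero)).tendsto.comp h1
    rw [Real.log_one] at h2
    refine h2.congr' ?_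
    filter_upwards [eventually_gt_atTop 0] with n hn
    have hn' : (0 : ℝ) < n := by exact_mod_cast hn
    show Real.log (1 + 1 / (n : ℝ)) = _
    rw [← Real.log_div (by positivity) hn'.ne']
    congr 1
    field_simp
  have h2 : Tendsto (fun n : ℕ => Real.log ((n : ℝ) + 1)) atTop atTop :=
    Real.tendsto_log_atTop.comp (tendsto_atTop_add_const_right _ _ tendsto_natCast_atTop_atTop)
  have h3 := h1.div_atTop h2
  have h4 : Tendsto (fun n : ℕ => 1 - (Real.log ((n : ℝ) + 1) - Real.log n) / Real.log ((n : ℝ) + 1)) atTop (𝓝 (1 - 0)) :=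
    tendsto_const_nhds.sub h3
  rw [sub_zero] at h4
  refine h4.congr' ?_
  filter_upwards [h2.eventually_gt_atTop 0] with n hn
  push_cast
  field_simp
  ring


lemma excess_eq [m : MeasurableSpace Ω] (μ : Measure Ω) (ℱ : Filtration ℕ m) (A : ℕ → Set Ω) {x y : ℝ} (hx : 0 ≤ x) (ω : Ω) :
    excess μ ℱ A x y ω = exc μ ℱ A ⌊x⌋₊ ⌈y⌉₊ ω := by
  classical
  unfold excess exc
  apply Finset.sum_congr _ fun _ _ => rfl
  ext r
  simp only [Finset.mem_filter, Finset.mem_range, Finset.mem_Ioo]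
  rw [Nat.floor_lt hx]
  exact and_comm

/-- from the limit statements to the set of limit points -/
lemma cluster {f : ℝ → ℝ} (h1 : ∀ ε : ℝ, 0 < ε → ∀ᶠ x : ℝ in atTop, |f x| ≤ 1 + ε)
    (h2 : ∀ z : ℝ, |z| ≤ 1 → ∀ ε : ℝ, 0 < ε → ∃ᶠ x : ℝ in atTop, |f x - z| < ε) :
    {z : ℝ | MapClusterPt z atTop f} = Icc (-1) 1 := by
  ext z
  rw [mem_Icc, ← abs_le]
  simp only [mem_ofPred_eq]
  constructor
  · intro hz
    by_contra hcon
    push Not at hcon
    set ε : ℝ := (|z| - 1) / 2 with hε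
    have hε0 : 0 < ε := by rw [hε]; linarith
    have hopen : IsOpen {w : ℝ | 1 + ε < |w|} := isOpen_lt continuous_const continuous_abs
    have hmem : z ∈ {w : ℝ | 1 + ε < |w|} := by
      show 1 + ε < |z|
      rw [hε]
      linarith
    obtain ⟨x, h6, h7⟩ := (((mapClusterPt_iff_frequently.1 hz) _ (hopen.mem_nhds hmem)).and_eventually (h1 ε hε0)).exists
    have h6' : 1 + ε < |f x| := h6
    linarith
  · intro hz
    rw [mapClusterPt_iff_frequently]
    intro s hs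
    obtain ⟨ε, hε, hsub⟩ := Metric.mem_nhds_iff.1 hs
    exact (h2 z hz ε hε).mono fun x hx => hsub hx

end Pool.Agent.Results.MP_b8a134_nt.FluctuationLaw

open Pool.Agent.Results.MP_b8a134_nt.FluctuationLaw Pool.Agent.N740.HK Pool.Agent.R528.RM

/-- The random sieve of Hawkins is a sequential model, the model of Cramér is one for some filtration for which
the conditional probability of choosing `r ≥ 3` is `1 / log r`.  In every sequential model and for every
`0 < θ < 1`, almost surely: every interval `(x, x + x ^ θ)` with `x` large contains a chosen integer, and the excess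
(number of chosen integers minus the sum of the conditional probabilities) in `(x, x + x ^ θ)`, divided by
`√(2 (1 - θ) x ^ θ)`, has as set of limit points, as the real number `x` tends to infinity, exactly `[-1, 1]`, and
its absolute value is at most `1 + ε` for large `x`.  For `θ = 1/2` the normalisation is `x ^ (1/4)`. -/
theorem Pool.Agent.Results.MP_b8a134_nt.FluctuationLaw.result
    {Ω : Type} [m : MeasurableSpace Ω] (μ : Measure Ω) [IsProbabilityMeasure μ] (A : ℕ → Set Ω) :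
    (CramerModel μ A → ∃ ℱ : Filtration ℕ m, SequentialModel μ ℱ A ∧
      ∀ᵐ ω ∂μ, ∀ r : ℕ, 3 ≤ r → (μ[(A r).indicator (fun _ => (1 : ℝ)) | ℱ (r - 1)]) ω = 1 / Real.log r) ∧
    ∀ ℱ : Filtration ℕ m,
    (HawkinsSieve μ ℱ A → SequentialModel μ ℱ A) ∧
    (SequentialModel μ ℱ A →
      (∀ᵐ ω ∂μ,
        (∀ᶠ x : ℝ in atTop, ∃ q : ℕ, x < q ∧ (q : ℝ) < x + √x ∧ ω ∈ A q) ∧
        {z : ℝ | MapClusterPt z atTop (fun x : ℝ => excess μ ℱ A x (x + √x) ω / x ^ (1 / 4 : ℝ))} = Icc (-1) 1 ∧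
        ∀ ε : ℝ, 0 < ε → ∀ᶠ x : ℝ in atTop, |excess μ ℱ A x (x + √x) ω| ≤ (1 + ε) * x ^ (1 / 4 : ℝ)) ∧
      ∀ θ : ℝ, 0 < θ → θ < 1 → ∀ᵐ ω ∂μ,
        (∀ᶠ x : ℝ in atTop, ∃ q : ℕ, x < q ∧ (q : ℝ) < x + x ^ θ ∧ ω ∈ A q) ∧
        {z : ℝ | MapClusterPt z atTop (fun x : ℝ => excess μ ℱ A x (x + x ^ θ) ω / √(2 * (1 - θ) * x ^ θ))} = Icc (-1) 1 ∧
        ∀ ε : ℝ, 0 < ε → ∀ᶠ x : ℝ in atTop, |excess μ ℱ A x (x + x ^ θ) ω| ≤ (1 + ε) * √(2 * (1 - θ) * x ^ θ)) := by
  classical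
  refine ⟨?_, fun ℱ => ⟨?_, ?_⟩⟩
  · rintro ⟨hA, hi, hp⟩
    have h1 : ∀ᵐ ω ∂μ, ∀ n, (μ[(A (n + 1)).indicator (fun _ => (1 : ℝ)) | gen hA n]) ω =
        (μ (A (n + 1))).toReal := ae_all_iff.2 fun n => dens_gen hA hi n
    refine ⟨gen hA, ⟨gen_meas hA, ?_⟩, ?_⟩
    · filter_upwards [h1] with ω hω
      refine log_ratio.congr' ?_
      filter_upwards [eventually_ge_atTop 2] with n hn
      rw [hω, hp (n + 1) (by omega), ENNReal.toReal_ofReal, one_div]
      have : 0 ≤ Real.log ((n + 1 : ℕ) : ℝ) := Real.log_natCast_nonneg _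
      positivity
    · filter_upwards [h1] with ω hω r hr
      obtain ⟨t, rfl⟩ : ∃ t, r = t + 1 := ⟨r - 1, by omega⟩
      rw [Nat.add_sub_cancel, hω t, hp (t + 1) (by omega), ENNReal.toReal_ofReal]
      have : 0 ≤ Real.log ((t + 1 : ℕ) : ℝ) := Real.log_natCast_nonneg _
      positivity
  · rintro ⟨h1, h2, h3⟩
    have hs : Pool.Agent.N740.HK.HS μ ℱ A := ⟨h1, h2, fun n hn => by
      filter_upwards [h3 n hn] with ω hω
      rw [← prod_inv]
      exact hω⟩
    exact ⟨h1, Pool.Agent.N740.HK.hawk_dens hs⟩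
  · rintro ⟨hA, hd⟩
    have main : ∀ θ : ℝ, 0 < θ → θ < 1 → ∀ᵐ ω ∂μ,
        (∀ᶠ x : ℝ in atTop, ∃ q : ℕ, x < q ∧ (q : ℝ) < x + x ^ θ ∧ ω ∈ A q) ∧
        (∀ ε : ℝ, 0 < ε → ∀ᶠ x : ℝ in atTop, |excess μ ℱ A x (x + x ^ θ) ω| ≤ (1 + ε) * √(2 * (1 - θ) * x ^ θ)) ∧
        ∀ z : ℝ, |z| ≤ 1 → ∀ ε : ℝ, 0 < ε → ∃ᶠ x : ℝ in atTop,
          |excess μ ℱ A x (x + x ^ θ) ω / √(2 * (1 - θ) * x ^ θ) - z| < ε := by
      intro θ hθ0 hθ
      filter_upwards [pow_nonempty (μ := μ) hA hd hθ0 hθ, pow_upper (μ := μ) hA hd hθ0 hθ, pow_law (μ := μ) hA hd hθ0 hθ]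
        with ω g1 g2 g3
      refine ⟨g1, fun ε hε => ?_, fun z hz ε hε => ?_⟩
      · filter_upwards [g2 ε hε, eventually_ge_atTop 0] with x hx hx0
        rw [excess_eq μ ℱ A hx0]
        exact hx
      · refine ((g3 z hz ε hε).and_eventually (eventually_ge_atTop 0)).mono ?_
        rintro x ⟨hx, hx0⟩
        rw [excess_eq μ ℱ A hx0]
        exact hx
    have fin : ∀ θ : ℝ, 0 < θ → θ < 1 → ∀ᵐ ω ∂μ,
        (∀ᶠ x : ℝ in atTop, ∃ q : ℕ, x < q ∧ (q : ℝ) < x + x ^ θ ∧ ω ∈ A q) ∧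
        {z : ℝ | MapClusterPt z atTop (fun x : ℝ => excess μ ℱ A x (x + x ^ θ) ω / √(2 * (1 - θ) * x ^ θ))} = Icc (-1) 1 ∧
        ∀ ε : ℝ, 0 < ε → ∀ᶠ x : ℝ in atTop, |excess μ ℱ A x (x + x ^ θ) ω| ≤ (1 + ε) * √(2 * (1 - θ) * x ^ θ) := by
      intro θ hθ0 hθ
      filter_upwards [main θ hθ0 hθ] with ω hω
      obtain ⟨g1, g2, g3⟩ := hω
      refine ⟨g1, cluster (fun ε hε => ?_) g3, g2⟩
      filter_upwards [g2 ε hε, eventually_gt_atTop 0] with x hx hx0
      have hN : 0 < √(2 * (1 - θ) * x ^ θ) := Real.sqrt_pos.2 (mul_pos (by linarith) (Real.rpow_pos_of_pos hx0 _))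
      rw [abs_div, abs_of_pos hN, div_le_iff₀ hN]
      exact hx
    refine ⟨?_, fin⟩
    have hN : ∀ x : ℝ, 0 ≤ x → √(2 * (1 - 1 / 2) * x ^ (1 / 2 : ℝ)) = x ^ (1 / 4 : ℝ) := by
      intro x hx
      rw [show (2 : ℝ) * (1 - 1 / 2) * x ^ (1 / 2 : ℝ) = x ^ (1 / 2 : ℝ) by ring, Real.sqrt_eq_rpow, ← Real.rpow_mul hx]
      norm_num
    filter_upwards [main (1 / 2) (by norm_num) (by norm_num)] with ω hω
    obtain ⟨g1, g2, g3⟩ := hω
    have g2' : ∀ ε : ℝ, 0 < ε → ∀ᶠ x : ℝ in atTop, |excess μ ℱ A x (x + √x) ω| ≤ (1 + ε) * x ^ (1 / 4 : ℝ) := by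
      intro ε hε
      filter_upwards [g2 ε hε, eventually_ge_atTop 0] with x hx hx0
      rw [hN x hx0, ← Real.sqrt_eq_rpow] at hx
      exact hx
    refine ⟨?_, cluster (fun ε hε => ?_) (fun z hz ε hε => ?_), g2'⟩
    · filter_upwards [g1] with x hx
      rw [Real.sqrt_eq_rpow]
      exact hx
    · filter_upwards [g2' ε hε, eventually_gt_atTop 0] with x hx hx0
      have h0 : 0 < x ^ (1 / 4 : ℝ) := Real.rpow_pos_of_pos hx0 _
      rw [abs_div, abs_of_pos h0, div_le_iff₀ h0]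
      exact hx
    · refine ((g3 z hz ε hε).and_eventually (eventually_ge_atTop 0)).mono ?_
      rintro x ⟨hx, hx0⟩
      rw [hN x hx0, ← Real.sqrt_eq_rpow] at hx
      exact hx
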