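import Mathlib
import Pool.Agent.N735.CL.Md5

/-!
# The exact size of the largest fluctuation of the number of primes, for almost all patterns

The problem asks for a prime `x + i`, `0 < i < √x`, for every `x ≥ 117`. We replace the pattern
`1, 2, 3, ...` by an arbitrary pattern `h_1, ..., h_K` of numbers from `{1, ..., X}`, the same for all
`x ≤ X`, and determine for almost all patterns of length `K`, where `K ≥ C log² X` is arbitrary, how
much the number of the primes `x + h_i` can differ from its expected value `K d(x)`, where `d(x)` is the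
density of the primes in `(x, x + X]`: the largest difference is `(1 + o(1)) √(2K)`, in both directions.
For the length `K = ⌊√X⌋` of the problem this is `√2 X^(1/4)`. (For shorter patterns, `K = c log² X`,
the largest difference is still of order `√K`, but the constant depends on `c`.)

The upper bound is an exponential moment and a union bound. For the lower bound the translates
by the multiples `m` of `W = ∏_{p ≤ w} p` are used, with the weights `t^(number of the primes m + h_i)`,
`t - 1 = ± √2 log X / √K`, and a product measure on the patterns, which depends on the residues modulo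
`W`. The correlations of two translates are estimated with the mean square of the number of
prime pairs and with the exponential moments of the singular series. The prime number theorem and
the sieve bound are from the starting files.
-/

set_option autoImplicit false
set_option maxHeartbeats 1000000

namespace Pool.Agent.Results.MP_b8a134_nt.FluctuationsForPatterns

open Finset Filter Topology

/-- the patterns: the sequences of `K` numbers from `{1, ..., X}` -/
def patterns (X K : ℕ) : Finset (Fin K → ℕ) := Fintype.piFinset fun _ => Icc 1 X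

open Classical in
/-- the proportion of the patterns which have the property `B` -/
noncomputable def proportion (X K : ℕ) (B : (Fin K → ℕ) → Prop) : ℝ :=
  (((patterns X K).filter B).card : ℝ) / (patterns X K).card

/-- the number of the primes among `x + h_i`, `i = 1, ..., K` -/
def cnt {K : ℕ} (h : Fin K → ℕ) (x : ℕ) : ℕ := (univ.filter fun i : Fin K => (x + h i).Prime).card

/-- the density of the primes in `(x, x + X]` -/
noncomputable def dens (X x : ℕ) : ℝ := ((Nat.primeCounting (x + X) : ℝ) - Nat.primeCounting x) / X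

/-- the largest excess of the number of the primes over its expected value -/
noncomputable def maxUp {K : ℕ} (X : ℕ) (h : Fin K → ℕ) : ℝ := sSup ((fun x : ℕ => (cnt h x : ℝ) - K * dens X x) '' Set.Icc 1 X)

/-- the largest deficit of the number of the primes below its expected value -/
noncomputable def maxDown {K : ℕ} (X : ℕ) (h : Fin K → ℕ) : ℝ := sSup ((fun x : ℕ => K * dens X x - (cnt h x : ℝ)) '' Set.Icc 1 X)

/-- the pattern `1, 2, 3, ...` of the problem -/
def oneTwo (K : ℕ) : Fin K → ℕ := fun i => i + 1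

lemma prop_eq {X K : ℕ} (B : (Fin K → ℕ) → Prop) : proportion X K B = Pool.Agent.N735.CL.PK X K B := by
  classical
  rw [Pool.Agent.N735.CL.PK_eq]
  unfold proportion
  have h0 : patterns X K = Pool.Agent.N735.CL.Om X K := rfl
  rw [h0, Pool.Agent.N735.CL.card_Om]
  push_cast
  congr!

lemma dens_eq (X x : ℕ) : Pool.Agent.N735.CL.E1 X (Pool.Agent.N735.CL.pr x) = dens X x := by
  unfold dens
  rw [Pool.Agent.N735.CL.E1_pr]

lemma sup_bound (f : ℕ → ℝ) (X : ℕ) (lo hi : ℝ) (h1 : ∃ m ∈ Icc 1 X, lo ≤ f m) (h2 : ∀ m ∈ Icc 1 X, f m ≤ hi) :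
    lo ≤ sSup (f '' Set.Icc 1 X) ∧ sSup (f '' Set.Icc 1 X) ≤ hi := by
  obtain ⟨m, hm, hlo⟩ := h1
  have hm' : m ∈ Set.Icc 1 X := by rw [mem_Icc] at hm; exact hm
  have hbd : ∀ y ∈ f '' Set.Icc 1 X, y ≤ hi := by
    rintro y ⟨k, hk, rfl⟩
    exact h2 k (mem_Icc.2 hk)
  constructor
  · exact hlo.trans (le_csSup ⟨hi, hbd⟩ ⟨m, hm', rfl⟩)
  · exact csSup_le ⟨f m, m, hm', rfl⟩ hbd

theorem result :
    (∀ x : ℕ, 1 ≤ x → cnt (oneTwo (⌈Real.sqrt x⌉₊ - 1)) x = {p : ℕ | p.Prime ∧ (x : ℝ) < p ∧ (p : ℝ) < x + Real.sqrt x}.ncard) ∧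
    (∀ ε θ : ℝ, 0 < ε → 0 < θ → ∃ C : ℝ, ∃ X₀ : ℕ, ∀ X : ℕ, X₀ ≤ X → ∀ K : ℕ, C * Real.log X ^ 2 ≤ K →
      1 - θ ≤ proportion X K (fun h => |maxUp X h - Real.sqrt (2 * K)| ≤ ε * Real.sqrt (2 * K) ∧
        |maxDown X h - Real.sqrt (2 * K)| ≤ ε * Real.sqrt (2 * K))) := by
  constructor
  · intro x hx
    have hs0 : 0 < Real.sqrt x := Real.sqrt_pos.2 (by exact_mod_cast hx)
    set K := ⌈Real.sqrt x⌉₊ - 1 with hK
    have hc1 : 1 ≤ ⌈Real.sqrt x⌉₊ := Nat.ceil_pos.2 hs0
    have hset : {p : ℕ | p.Prime ∧ (x : ℝ) < p ∧ (p : ℝ) < x + Real.sqrt x} = ((Ioc x (x + K)).filter Nat.Prime : Finset ℕ) := by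
      ext p
      rw [Finset.mem_coe, mem_filter, mem_Ioc]
      simp only [Set.mem_setOf_eq]
      constructor
      · rintro ⟨h1, h2, h3⟩
        have h4 : x < p := by exact_mod_cast h2
        refine ⟨⟨h4, ?_⟩, h1⟩
        have h5 : ((p - x : ℕ) : ℝ) < Real.sqrt x := by
          rw [Nat.cast_sub h4.le]; linarith
        have h6 : p - x < ⌈Real.sqrt x⌉₊ := Nat.lt_ceil.2 h5
        omega
      · rintro ⟨⟨h1, h2⟩, h3⟩
        refine ⟨h3, by exact_mod_cast h1, ?_⟩
        have h6 : p - x < ⌈Real.sqrt x⌉₊ := by omega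
        have h5 := Nat.lt_ceil.1 h6
        rw [Nat.cast_sub h1.le] at h5
        linarith
    rw [hset, Set.ncard_coe_finset]
    unfold cnt oneTwo
    refine card_bij' (fun i _ => x + (i + 1)) (fun p hp => (⟨p - x - 1, ?_⟩ : Fin K)) ?_ ?_ ?_ ?_
    · rw [mem_filter, mem_Ioc] at hp
      omega
    · intro i hi
      rw [mem_filter] at hi ⊢
      rw [mem_Ioc]
      exact ⟨by omega, hi.2⟩
    · intro p hp
      rw [mem_filter, mem_Ioc] at hp
      rw [mem_filter]
      refine ⟨mem_univ _, ?_⟩
      have e : x + (p - x - 1 + 1) = p := by omega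
      show (x + (p - x - 1 + 1)).Prime
      rw [e]; exact hp.2
    · intro i _
      ext
      show x + ((i : ℕ) + 1) - x - 1 = i
      omega
    · intro p hp
      rw [mem_filter, mem_Ioc] at hp
      show x + (p - x - 1 + 1) = p
      omega
  · intro ε' θ hε' hθ
    set ε := min ε' 1 with hε
    have hε0 : 0 < ε := lt_min hε' one_pos
    have hε1 : ε ≤ 1 := min_le_right _ _
    have hεε : ε ≤ ε' := min_le_left _ _
    obtain ⟨X₀, hX₀⟩ := eventually_atTop.1 (Pool.Agent.N735.CL.dev_law ε θ hε0 hε1 hθ)
    refine ⟨8192 / ε ^ 2, max X₀ 1, fun X hX K hK => ?_⟩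
    have hX1 : 1 ≤ X := (le_max_right _ _).trans hX
    have h1 := hX₀ X ((le_max_left _ _).trans hX) K hK
    rw [prop_eq]
    set S := Real.sqrt (2 * K) with hS
    have hS0 : 0 ≤ S := Real.sqrt_nonneg _
    have hεS : ε * S ≤ ε' * S := mul_le_mul_of_nonneg_right hεε hS0
    have h2 : (1 : ℝ) ≤ Pool.Agent.N735.CL.PK X K (fun h => (|maxUp X h - S| ≤ ε' * S ∧ |maxDown X h - S| ≤ ε' * S) ∨
        ¬ ∀ σ : ℝ, (σ = 1 ∨ σ = -1) →
          (∃ m ∈ Icc 1 X, (1 - ε) * S ≤ σ * ((Pool.Agent.N735.CL.Nm h m : ℝ) - K * Pool.Agent.N735.CL.E1 X (Pool.Agent.N735.CL.pr m))) ∧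
          (∀ m ∈ Icc 1 X, σ * ((Pool.Agent.N735.CL.Nm h m : ℝ) - K * Pool.Agent.N735.CL.E1 X (Pool.Agent.N735.CL.pr m)) ≤ (1 + ε) * S)) := by
      apply Pool.Agent.N735.CL.one_le_PK hX1
      intro h
      by_cases hc : ∀ σ : ℝ, (σ = 1 ∨ σ = -1) →
          (∃ m ∈ Icc 1 X, (1 - ε) * S ≤ σ * ((Pool.Agent.N735.CL.Nm h m : ℝ) - K * Pool.Agent.N735.CL.E1 X (Pool.Agent.N735.CL.pr m))) ∧
          (∀ m ∈ Icc 1 X, σ * ((Pool.Agent.N735.CL.Nm h m : ℝ) - K * Pool.Agent.N735.CL.E1 X (Pool.Agent.N735.CL.pr m)) ≤ (1 + ε) * S)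
      · left
        have hcn : ∀ m, (Pool.Agent.N735.CL.Nm h m : ℝ) = cnt h m := fun m => rfl
        constructor
        · obtain ⟨u1, u2⟩ := hc 1 (Or.inl rfl)
          have h3 := sup_bound (fun x : ℕ => (cnt h x : ℝ) - K * dens X x) X ((1 - ε) * S) ((1 + ε) * S)
            (by
              obtain ⟨m, hm, hm2⟩ := u1
              rw [one_mul, hcn, dens_eq] at hm2
              exact ⟨m, hm, hm2⟩)
            (by
              intro m hm
              have := u2 m hm
              rw [one_mul, hcn, dens_eq] at this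
              exact this)
          unfold maxUp
          rw [abs_le]
          constructor <;> linarith [h3.1, h3.2]
        · obtain ⟨u1, u2⟩ := hc (-1) (Or.inr rfl)
          have h3 := sup_bound (fun x : ℕ => K * dens X x - (cnt h x : ℝ)) X ((1 - ε) * S) ((1 + ε) * S)
            (by
              obtain ⟨m, hm, hm2⟩ := u1
              rw [hcn, dens_eq] at hm2
              exact ⟨m, hm, by linarith⟩)
            (by
              intro m hm
              have := u2 m hm
              rw [hcn, dens_eq] at this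
              linarith)
          unfold maxDown
          rw [abs_le]
          constructor <;> linarith [h3.1, h3.2]
      · right; exact hc
    have h3 := h2.trans (Pool.Agent.N735.CL.PK_or _ _)
    linarith

end Pool.Agent.Results.MP_b8a134_nt.FluctuationsForPatterns
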