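import Pool.Agent.N743.MT.Frac

/-!
# Clusters of primes and the fractional parts of their square roots

Schinzel's question asks for a prime between `x` and `x + √x`. With `√x = n + θ` the interval `(x, x + ε √x)` is,
up to a bounded error, the set of the `y` whose square root lies in `(n + θ, n + θ + ε / 2)`. So one asks how
the fractional parts of the square roots of the primes are distributed on the finest scale, one arc for each
integer `n`.

(1) Let `k`, `m`, `q` be given and let `a` be prime to `q`. There are `C`, `D` and `c > 0` such that at every large
scale `N`, for at least `5 m / 18` of the `m` arcs `(r / m, (r + 1) / m)` there is an integer `n` between `N` and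
`6 m q N` such that at least `c n / (log n) ^ D` of the intervals `[y, y + C]` of the bounded length `C` have their
square roots in `(n + r / m, n + (r + 1) / m)` and contain at least `k` primes congruent to `a` modulo `q`.

(2) Let `E_k` be the (closed, decreasing with `k`) set of the limit points of the fractional parts of the square
roots of the starting points `y` of clusters of `k` primes congruent to `a` modulo `q` (at bounded distance). The
intersection of all `E_k` has measure at least `5 / 18`.

The proof uses the coloured theorem of Maynard-Tao type with the constant `18 / 5`, uniform in the shifts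
(`Pool.Agent.Y827.RO.lamR0`, from the files this team started from).
-/

set_option autoImplicit false

namespace Pool.Agent.Results.MP_b8a134_nt.FractionalPartsOfSquareRoots

open Finset Filter MeasureTheory

/-- `[y, y + C]` contains at least `k` primes congruent to `a` modulo `q` -/
def Cluster (q a k C y : ℕ) : Prop :=
  k ≤ ((Icc y (y + C)).filter (fun p => p.Prime ∧ p ≡ a [MOD q])).card

/-- the number of the `y` such that the square roots of `y` and of `y + C` lie between `n + r / m` and
`n + (r + 1) / m` and `[y, y + C]` contains at least `k` primes congruent to `a` modulo `q` -/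
noncomputable def clusters (q a k C m n r : ℕ) : ℕ :=
  {y : ℕ | (n : ℝ) + r / m < √(y : ℝ) ∧ √((y + C : ℕ) : ℝ) < n + (r + 1) / m ∧ Cluster q a k C y}.ncard

/-- the limit points `z` of the fractional parts of the square roots of the clusters of `k` primes congruent to
`a` modulo `q`: for every `δ > 0` there is `C` such that for infinitely many `y` the interval `[y, y + C]` contains
`k` primes congruent to `a` modulo `q` and the fractional part of `√y` is closer than `δ` to `z` -/
def LimitPoints (q a k : ℕ) : Set ℝ :=
  {z : ℝ | z ∈ Set.Icc (0 : ℝ) 1 ∧ ∀ δ : ℝ, 0 < δ → ∃ C : ℕ, ∀ N : ℕ, ∃ y ≥ N, Cluster q a k C y ∧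
    |Int.fract √(y : ℝ) - z| < δ}

open Classical in
/-- Let `q ≥ 1` and let `a` be prime to `q`. (1) For all `k` and `m ≥ 1` there are `C`, `D` and `c > 0` such that for
all large `N` at least `5 m / 18` of the `r < m` have an integer `n`, `N ≤ n ≤ 6 m q N`, with at least
`c n / (log n) ^ D` clusters of `k` primes congruent to `a` modulo `q` in intervals of length `C` with square roots
between `n + r / m` and `n + (r + 1) / m`. (2) The set of the reals which for every `k` are limit points of the
fractional parts of the square roots of the clusters of `k` primes congruent to `a` modulo `q` has Lebesgue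
measure at least `5 / 18`. -/
theorem result (q a : ℕ) (hq : 1 ≤ q) (ha : a.Coprime q) :
    (∀ k m : ℕ, 1 ≤ m → ∃ C D : ℕ, ∃ c : ℝ, 0 < c ∧ ∀ᶠ N : ℕ in atTop,
      5 * m ≤ 18 * ((range m).filter (fun r => ∃ n : ℕ, N ≤ n ∧ n ≤ 6 * (m * q) * N ∧
        c * (n / Real.log n ^ D) ≤ (clusters q a k C m n r : ℝ))).card) ∧
    ENNReal.ofReal (5 / 18) ≤ volume (⋂ k : ℕ, LimitPoints q a k) :=
  ⟨fun k m hm => Pool.Agent.N743.MT.arcs k m q a hm hq ha, Pool.Agent.N743.MT.frac_measure q a hq ha⟩

end Pool.Agent.Results.MP_b8a134_nt.FractionalPartsOfSquareRoots
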